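import Pool.Agent.Helper26.KD.St

/-! # Project CB (MP_65faa7, bulk case), block K: module Kt, all exponents -/

set_option autoImplicit false

open scoped BigOperators ENNReal Topology
open Pool.LE Pool.NL Filter

namespace Pool.KD

namespace KtM

variable {d : ℕ}

/-- the Green function is summable -/
theorem sumG {F g G : Zd d → ℝ} {K A : ℝ} (h : KS d F g G K A) : Summable G := by
  refine Summable.of_nonneg_of_le h.G0 (fun y => ?_) h.Gs
  have h1 : 0 ≤ nn y := Real.sqrt_nonneg _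
  have h2 : (1 : ℝ) ≤ (1 + nn y) ^ 3 := one_le_pow₀ (by linarith)
  calc G y = 1 * G y := (one_mul _).symm
    _ ≤ (1 + nn y) ^ 3 * G y := mul_le_mul_of_nonneg_right h2 (h.G0 y)

theorem sumGs {F g G : Zd d → ℝ} {K A : ℝ} (h : KS d F g G K A) (x : Zd d) :
    Summable (fun y => G (x - y)) := by
  have h1 := (Equiv.subLeft x).summable_iff (f := G)
  exact h1.2 (sumG h)

theorem sumGw {F g G : Zd d → ℝ} {K A : ℝ} (h : KS d F g G K A) (x : Zd d) {w : Zd d → ℝ}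
    (h0 : ∀ y, 0 ≤ w y) (h1 : ∀ y, w y ≤ 1) : Summable (fun y => G (x - y) * w y) := by
  refine Summable.of_nonneg_of_le (fun y => mul_nonneg (h.G0 _) (h0 y)) (fun y => ?_) (sumGs h x)
  calc G (x - y) * w y ≤ G (x - y) * 1 := mul_le_mul_of_nonneg_left (h1 y) (h.G0 _)
    _ = G (x - y) := mul_one _

theorem ww0 (hW : StW) {m s : ℝ} (hm : 1 ≤ m) (hs : 0 ≤ s) (x : Zd d) : 0 ≤ ww s m x :=
  ((hW d m hm).2.2.1 s x hs).1.le

theorem ww1 (hW : StW) {m s : ℝ} (hm : 1 ≤ m) (hs : 0 ≤ s) (x : Zd d) : ww s m x ≤ 1 :=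
  ((hW d m hm).2.2.1 s x hs).2.1

/-- the bound with constants `C`, `m₀` -/
def Bd (d : ℕ) (t K A C m₀ : ℝ) : Prop := ∀ F g G : Zd d → ℝ, KS d F g G K A →
  ∀ (m : ℝ) (x : Zd d), m₀ ≤ m → ∑' y, G (x - y) * ww t m y ≤ C * m ^ 2 * ww (t - 2) m x

theorem bd_dir (hDir : StDir) {t K A : ℝ} (hd : 21 ≤ d) (ht : 2 < t) (ht3 : t ≤ 3) (hK : 1 ≤ K)
    (hA : 0 < A) : ∃ C m₀ : ℝ, 1 ≤ C ∧ 1 ≤ m₀ ∧ Bd d t K A C m₀ := by
  obtain ⟨C, m₀, hC, hm₀, h⟩ := hDir d (t - 2) K A hd (by linarith) (by linarith) hK hA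
  refine ⟨C, m₀, hC, hm₀, fun F g G hG m x hm => ?_⟩
  have h1 := h F g G hG m x hm
  have e : t - 2 + 2 = t := by ring
  rwa [e] at h1

theorem bd_five (hW : StW) (hBoo1 : StBoo1) (hFt : StFt) {K A : ℝ} (hd : 21 ≤ d) (hK : 1 ≤ K)
    (hA : 0 < A) : ∃ C m₀ : ℝ, 1 ≤ C ∧ 1 ≤ m₀ ∧ Bd d 5 K A C m₀ := by
  obtain ⟨C, m₀, hC, hm₀, h⟩ := hBoo1 d K A hd hK hA
  refine ⟨2 * C + 1, max m₀ (2 * C), by linarith, le_trans hm₀ (le_max_left _ _), ?_⟩
  intro F g G hG m x hm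
  have hm1 : m₀ ≤ m := le_trans (le_max_left _ _) hm
  have hm2 : 2 * C ≤ m := le_trans (le_max_right _ _) hm
  have hm3 : 1 ≤ m := hm₀.trans hm1
  have hm4 : 0 < m := by linarith
  obtain ⟨Γ, hΓ, hΓb⟩ := hFt d F g G K A m hG hm3
  have hCm : C / m ≤ 1 / 2 := by
    rw [div_le_div_iff₀ hm4 (by norm_num)]
    linarith
  -- iteration
  have hit : ∀ k : ℕ, ∀ x : Zd d, ∑' y, G (x - y) * ww 5 m y ≤
      (2 * C + 1 + (1 / 2) ^ k * Γ) * m ^ 2 * ww 3 m x := by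
    intro k
    induction k with
    | zero =>
      intro x
      refine (hΓb x).trans ?_
      have h3 := ww0 hW hm3 (by norm_num : (0 : ℝ) ≤ 3) x
      have h4 : 0 ≤ m ^ 2 * ww 3 m x := by positivity
      rw [pow_zero, one_mul, mul_assoc, mul_assoc]
      exact mul_le_mul_of_nonneg_right (by linarith) h4
    | succ k ih =>
      intro x
      have hΓk : 0 ≤ 2 * C + 1 + (1 / 2) ^ k * Γ := by positivity
      have h1 := h F g G hG m (2 * C + 1 + (1 / 2) ^ k * Γ) hm1 hΓk ih x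
      refine h1.trans ?_
      have h3 := ww0 hW hm3 (by norm_num : (0 : ℝ) ≤ 3) x
      have h4 : 0 ≤ m ^ 2 * ww 3 m x := by positivity
      rw [mul_assoc, mul_assoc]
      refine mul_le_mul_of_nonneg_right ?_ h4
      have h5 : C / m * (1 + (2 * C + 1 + (1 / 2) ^ k * Γ)) ≤
          1 / 2 * (1 + (2 * C + 1 + (1 / 2) ^ k * Γ)) :=
        mul_le_mul_of_nonneg_right hCm (by linarith)
      rw [pow_succ]
      linarith
  have e : (5 : ℝ) - 2 = 3 := by norm_num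
  rw [e]
  have hlim : Tendsto (fun k : ℕ => (2 * C + 1 + (1 / 2 : ℝ) ^ k * Γ) * m ^ 2 * ww 3 m x) atTop
      (𝓝 ((2 * C + 1 + 0 * Γ) * m ^ 2 * ww 3 m x)) :=
    ((((tendsto_pow_atTop_nhds_zero_of_lt_one (by norm_num) (by norm_num)).mul_const Γ).const_add
      (2 * C + 1)).mul_const (m ^ 2)).mul_const _
  rw [zero_mul, add_zero] at hlim
  exact ge_of_tendsto' hlim fun k => hit k x

/-- interpolation of the weights -/
theorem ww_le (hW : StW) {t m : ℝ} (hm : 1 ≤ m) (ht3 : 3 ≤ t) (ht5 : t ≤ 5) (x y : Zd d) :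
    ww t m y ≤ qq m x ^ ((3 - t) / 2) * ww 3 m y + qq m x ^ ((5 - t) / 2) * ww 5 m y := by
  have hx : 1 ≤ qq m x := ((hW d m hm).1 x).1
  have hy : 1 ≤ qq m y := ((hW d m hm).1 y).1
  have hx0 : 0 < qq m x := by linarith
  have hy0 : 0 < qq m y := by linarith
  have h3 := ww0 hW hm (by norm_num : (0 : ℝ) ≤ 3) y
  have h5 := ww0 hW hm (by norm_num : (0 : ℝ) ≤ 5) y
  rcases le_total (qq m x) (qq m y) with h | h
  · have h1 : qq m y ^ ((3 - t) / 2) ≤ qq m x ^ ((3 - t) / 2) :=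
      Real.rpow_le_rpow_of_nonpos hx0 h (by linarith)
    have e1 : ww t m y = qq m y ^ ((3 - t) / 2) * ww 3 m y := by
      unfold ww
      rw [← Real.rpow_add hy0]
      congr 1
      ring
    have h2 : 0 ≤ qq m x ^ ((5 - t) / 2) * ww 5 m y := by positivity
    have h4 := mul_le_mul_of_nonneg_right h1 h3
    rw [← e1] at h4
    linarith
  · have h1 : qq m y ^ ((5 - t) / 2) ≤ qq m x ^ ((5 - t) / 2) :=
      Real.rpow_le_rpow hy0.le h (by linarith)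
    have e1 : ww t m y = qq m y ^ ((5 - t) / 2) * ww 5 m y := by
      unfold ww
      rw [← Real.rpow_add hy0]
      congr 1
      ring
    have h2 : 0 ≤ qq m x ^ ((3 - t) / 2) * ww 3 m y := by positivity
    have h4 := mul_le_mul_of_nonneg_right h1 h5
    rw [← e1] at h4
    linarith

theorem bd_int (hW : StW) {t K A C₃ m₃ C₅ m₅ : ℝ} (hm₃ : 1 ≤ m₃)
    (ht3 : 3 ≤ t) (ht5 : t ≤ 5) (h3 : Bd d 3 K A C₃ m₃) (h5 : Bd d 5 K A C₅ m₅) :
    Bd d t K A (C₃ + C₅) (max m₃ m₅) := by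
  intro F g G hG m x hm
  have hm1 : m₃ ≤ m := le_trans (le_max_left _ _) hm
  have hm2 : m₅ ≤ m := le_trans (le_max_right _ _) hm
  have hm3 : 1 ≤ m := hm₃.trans hm1
  have hx : 1 ≤ qq m x := ((hW d m hm3).1 x).1
  have hx0 : 0 < qq m x := by linarith
  have s3 := sumGw hG x (ww0 hW hm3 (by norm_num : (0 : ℝ) ≤ 3)) (ww1 hW hm3 (by norm_num))
  have s5 := sumGw hG x (ww0 hW hm3 (by norm_num : (0 : ℝ) ≤ 5)) (ww1 hW hm3 (by norm_num))
  have st := sumGw hG x (ww0 hW hm3 (by linarith : (0 : ℝ) ≤ t)) (ww1 hW hm3 (by linarith))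
  have h6 : ∑' y, G (x - y) * ww t m y ≤
      ∑' y, (qq m x ^ ((3 - t) / 2) * (G (x - y) * ww 3 m y) +
        qq m x ^ ((5 - t) / 2) * (G (x - y) * ww 5 m y)) := by
    refine Summable.tsum_le_tsum (fun y => ?_) st ((s3.mul_left _).add (s5.mul_left _))
    have h7 := mul_le_mul_of_nonneg_left (ww_le hW hm3 ht3 ht5 x y) (hG.G0 (x - y))
    linarith
  rw [Summable.tsum_add (s3.mul_left _) (s5.mul_left _), tsum_mul_left, tsum_mul_left] at h6
  have h7 := mul_le_mul_of_nonneg_left (h3 F g G hG m x hm1)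
    (Real.rpow_nonneg hx0.le ((3 - t) / 2))
  have h8 := mul_le_mul_of_nonneg_left (h5 F g G hG m x hm2)
    (Real.rpow_nonneg hx0.le ((5 - t) / 2))
  have e3 : qq m x ^ ((3 - t) / 2) * ww (3 - 2) m x = ww (t - 2) m x := by
    unfold ww
    rw [← Real.rpow_add hx0]
    congr 1
    ring
  have e5 : qq m x ^ ((5 - t) / 2) * ww (5 - 2) m x = ww (t - 2) m x := by
    unfold ww
    rw [← Real.rpow_add hx0]
    congr 1
    ring
  calc ∑' y, G (x - y) * ww t m y ≤ _ := h6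
    _ ≤ qq m x ^ ((3 - t) / 2) * (C₃ * m ^ 2 * ww (3 - 2) m x) +
        qq m x ^ ((5 - t) / 2) * (C₅ * m ^ 2 * ww (5 - 2) m x) := add_le_add h7 h8
    _ = C₃ * m ^ 2 * (qq m x ^ ((3 - t) / 2) * ww (3 - 2) m x) +
        C₅ * m ^ 2 * (qq m x ^ ((5 - t) / 2) * ww (5 - 2) m x) := by ring
    _ = (C₃ + C₅) * m ^ 2 * ww (t - 2) m x := by rw [e3, e5]; ring

theorem sq_nonneg' (x : Zd d) : 0 ≤ LE.sq x := by
  unfold LE.sq
  positivity

/-- small `m` -/
theorem bd_all (hW : StW) {t K A C m₀ : ℝ} (hC : 1 ≤ C) (hm₀ : 1 ≤ m₀) (ht : 2 < t)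
    (h : Bd d t K A C m₀) : Bd d t K A (C * m₀ ^ t) 1 := by
  intro F g G hG m x hm
  have hm0 : 0 < m := by linarith
  have hm₀0 : 0 < m₀ := by linarith
  have hmt : 1 ≤ m₀ ^ t := Real.one_le_rpow hm₀ (by linarith)
  have hw0 := ww0 hW hm (by linarith : (0 : ℝ) ≤ t - 2) x
  rcases le_total m₀ m with h1 | h1
  · refine (h F g G hG m x h1).trans ?_
    have h2 : 0 ≤ m ^ 2 * ww (t - 2) m x := by positivity
    rw [mul_assoc, mul_assoc]
    refine mul_le_mul_of_nonneg_right ?_ h2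
    calc C = C * 1 := (mul_one _).symm
      _ ≤ C * m₀ ^ t := mul_le_mul_of_nonneg_left hmt (by linarith)
  · have hq : ∀ y : Zd d, qq m₀ y ≤ qq m y := by
      intro y
      unfold qq
      have h2 := sq_nonneg' y
      have h3 : LE.sq y / m₀ ^ 2 ≤ LE.sq y / m ^ 2 :=
        div_le_div_of_nonneg_left h2 (by positivity) (pow_le_pow_left₀ hm0.le h1 2)
      linarith
    have hq1 : ∀ y : Zd d, 1 ≤ qq m₀ y := fun y => ((hW d m₀ hm₀).1 y).1
    have hw : ∀ y : Zd d, ww t m y ≤ ww t m₀ y := by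
      intro y
      unfold ww
      exact Real.rpow_le_rpow_of_nonpos (by linarith [hq1 y]) (hq y) (by linarith)
    have st := sumGw hG x (ww0 hW hm (by linarith : (0 : ℝ) ≤ t)) (ww1 hW hm (by linarith))
    have st' := sumGw hG x (ww0 hW hm₀ (by linarith : (0 : ℝ) ≤ t)) (ww1 hW hm₀ (by linarith))
    have h2 : ∑' y, G (x - y) * ww t m y ≤ ∑' y, G (x - y) * ww t m₀ y :=
      Summable.tsum_le_tsum (fun y => mul_le_mul_of_nonneg_left (hw y) (hG.G0 _)) st st'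
    have h3 := h F g G hG m₀ x le_rfl
    -- comparison at `x`
    have h4 : qq m x ≤ m₀ ^ 2 * qq m₀ x := by
      unfold qq
      have h5 := sq_nonneg' x
      have h6 : LE.sq x / m ^ 2 ≤ LE.sq x := by
        rw [div_le_iff₀ (by positivity)]
        have h7 : (1 : ℝ) ≤ m ^ 2 := one_le_pow₀ hm
        calc LE.sq x = LE.sq x * 1 := (mul_one _).symm
          _ ≤ LE.sq x * m ^ 2 := mul_le_mul_of_nonneg_left h7 h5
      have h7 : (1 : ℝ) ≤ m₀ ^ 2 := one_le_pow₀ hm₀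
      have h8 : m₀ ^ 2 * (1 + LE.sq x / m₀ ^ 2) = m₀ ^ 2 + LE.sq x := by
        field_simp
      rw [h8]
      linarith
    have hx1 : 1 ≤ qq m x := ((hW d m hm).1 x).1
    have h5 : ww (t - 2) m₀ x ≤ m₀ ^ (t - 2) * ww (t - 2) m x := by
      unfold ww
      have h6 : (m₀ ^ 2 * qq m₀ x) ^ (-((t - 2) / 2)) ≤ qq m x ^ (-((t - 2) / 2)) :=
        Real.rpow_le_rpow_of_nonpos (by linarith) h4 (by linarith)
      rw [Real.mul_rpow (by positivity) (by linarith [hq1 x])] at h6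
      have e1 : (m₀ ^ 2) ^ (-((t - 2) / 2)) = (m₀ ^ (t - 2))⁻¹ := by
        rw [← Real.rpow_natCast, ← Real.rpow_mul hm₀0.le, ← Real.rpow_neg hm₀0.le]
        congr 1
        push_cast
        ring
      rw [e1, inv_mul_le_iff₀ (by positivity)] at h6
      exact h6
    have e2 : m₀ ^ t = m₀ ^ 2 * m₀ ^ (t - 2) := by
      rw [← Real.rpow_natCast, ← Real.rpow_add hm₀0]
      congr 1
      push_cast
      ring
    calc ∑' y, G (x - y) * ww t m y ≤ C * m₀ ^ 2 * ww (t - 2) m₀ x := h2.trans h3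
      _ ≤ C * m₀ ^ 2 * (m₀ ^ (t - 2) * ww (t - 2) m x) :=
          mul_le_mul_of_nonneg_left h5 (by positivity)
      _ = C * m₀ ^ t * 1 * ww (t - 2) m x := by rw [e2]; ring
      _ ≤ C * m₀ ^ t * m ^ 2 * ww (t - 2) m x := by
          refine mul_le_mul_of_nonneg_right (mul_le_mul_of_nonneg_left ?_ (by positivity)) hw0
          exact one_le_pow₀ hm

end KtM

/-- a priori finiteness -/
theorem hFt (hW : StW) : StFt := by
  intro d F g G K A m hG hm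
  have hS0 : 0 ≤ ∑' y, (1 + nn y) ^ 3 * G y :=
    tsum_nonneg fun y => mul_nonneg (pow_nonneg (by
      have : 0 ≤ nn y := Real.sqrt_nonneg _
      linarith) 3) (hG.G0 y)
  refine ⟨8 * ∑' y, (1 + nn y) ^ 3 * G y, by positivity, fun x => ?_⟩
  have hm0 : 0 < m := by linarith
  have hw3 := KtM.ww0 hW hm (by norm_num : (0 : ℝ) ≤ 3) x
  have e1 : ∑' y, G (x - y) * ww 5 m y = ∑' z, G z * ww 5 m (x - z) := by
    rw [← (Equiv.subLeft x).tsum_eq (fun z => G z * ww 5 m (x - z))]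
    refine tsum_congr fun y => ?_
    rw [Equiv.subLeft_apply, sub_sub_cancel]
  rw [e1]
  have h1 : ∀ z : Zd d, G z * ww 5 m (x - z) ≤ 8 * ww 3 m x * ((1 + nn z) ^ 3 * G z) := by
    intro z
    have hz : 0 ≤ nn z := Real.sqrt_nonneg _
    have h2 : ww 5 m (x - z) ≤ ww 3 m (x - z) := (hW d m hm).2.2.2.1 3 5 _ (by norm_num)
    have h3 : ww 3 m (x - z) ≤ 2 ^ (3 : ℝ) * (1 + nn z / m) ^ (3 : ℝ) * ww 3 m x :=
      (hW d m hm).2.2.2.2.2.1 3 x z (by norm_num)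
    have e2 : (2 : ℝ) ^ (3 : ℝ) = 8 := by
      have : (3 : ℝ) = ((3 : ℕ) : ℝ) := by norm_num
      rw [this, Real.rpow_natCast]
      norm_num
    have e3 : (1 + nn z / m) ^ (3 : ℝ) = (1 + nn z / m) ^ 3 := by
      have : (3 : ℝ) = ((3 : ℕ) : ℝ) := by norm_num
      rw [this, Real.rpow_natCast]
    rw [e2, e3] at h3
    have h4 : (1 + nn z / m) ^ 3 ≤ (1 + nn z) ^ 3 := by
      refine pow_le_pow_left₀ (by positivity) ?_ 3
      have : nn z / m ≤ nn z := div_le_self hz hm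
      linarith
    have h5 : ww 5 m (x - z) ≤ 8 * (1 + nn z) ^ 3 * ww 3 m x := by
      refine (h2.trans h3).trans ?_
      exact mul_le_mul_of_nonneg_right (by linarith) hw3
    calc G z * ww 5 m (x - z) ≤ G z * (8 * (1 + nn z) ^ 3 * ww 3 m x) :=
          mul_le_mul_of_nonneg_left h5 (hG.G0 z)
      _ = _ := by ring
  have hsum : Summable (fun z => 8 * ww 3 m x * ((1 + nn z) ^ 3 * G z)) := hG.Gs.mul_left _
  have hs1 : Summable (fun z => G z * ww 5 m (x - z)) :=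
    Summable.of_nonneg_of_le (fun z => mul_nonneg (hG.G0 z)
      (KtM.ww0 hW hm (by norm_num : (0 : ℝ) ≤ 5) _)) h1 hsum
  have h6 := Summable.tsum_le_tsum h1 hs1 hsum
  rw [tsum_mul_left] at h6
  refine h6.trans ?_
  have h7 : (1 : ℝ) ≤ m ^ 2 := one_le_pow₀ hm
  calc 8 * ww 3 m x * ∑' z, (1 + nn z) ^ 3 * G z =
      8 * (∑' z, (1 + nn z) ^ 3 * G z) * 1 * ww 3 m x := by ring
    _ ≤ 8 * (∑' z, (1 + nn z) ^ 3 * G z) * m ^ 2 * ww 3 m x :=
        mul_le_mul_of_nonneg_right (mul_le_mul_of_nonneg_left h7 (by positivity)) hw3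

/-- all exponents -/
theorem hKt (hW : StW) (hDir : StDir) (hBoo1 : StBoo1) (hFt : StFt) : StKt := by
  intro d t K A hd ht2 ht5 hK hA
  have key : ∃ C m₀ : ℝ, 1 ≤ C ∧ 1 ≤ m₀ ∧ KtM.Bd d t K A C m₀ := by
    rcases le_total t 3 with h3 | h3
    · exact KtM.bd_dir hDir hd ht2 h3 hK hA
    · obtain ⟨C₃, m₃, hC₃, hm₃, h3'⟩ := KtM.bd_dir hDir hd (by norm_num : (2 : ℝ) < 3) le_rfl hK hA
      obtain ⟨C₅, m₅, hC₅, hm₅, h5'⟩ := KtM.bd_five hW hBoo1 hFt hd hK hA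
      exact ⟨C₃ + C₅, max m₃ m₅, by linarith, le_trans hm₃ (le_max_left _ _),
        KtM.bd_int hW hm₃ h3 ht5 h3' h5'⟩
  obtain ⟨C, m₀, hC, hm₀, h⟩ := key
  refine ⟨C * m₀ ^ t, ?_, fun F g G hG m x hm => KtM.bd_all hW hC hm₀ ht2 h F g G hG m x hm⟩
  have h1 : 1 ≤ m₀ ^ t := Real.one_le_rpow hm₀ (by linarith)
  calc (1 : ℝ) = 1 * 1 := (mul_one _).symm
    _ ≤ C * m₀ ^ t := mul_le_mul hC h1 zero_le_one (by linarith)

end Pool.KD
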